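import Pool.Agent.Helper43.Split.AS3

/-!
# Splittability of principal permutation classes

`Av(π)` is splittable if and only if `π` is not simple and is not one of `132`, `213`, `231`,
`312`; in particular there is an algorithm that decides splittability of `Av(π)` from `π`.
-/

namespace Pool.Agent.Results.MP_739fc0_co.PrincipalClasses

open Helper43.Split

theorem result : ∃ f : List ℕ → Bool, Computable f ∧ ∀ π : PermN,
    (f (word π) = true ↔ Splittable (Av {π})) ∧
    (Splittable (Av {π}) ↔
      ¬ Simple π ∧ word π ∉ [[1, 3, 2], [2, 1, 3], [2, 3, 1], [3, 1, 2]]) := by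
  obtain ⟨f, hf, h⟩ := computable_simple
  exact ⟨f, hf, fun π => ⟨by rw [h, splittable_iff], splittable_iff π⟩⟩

end Pool.Agent.Results.MP_739fc0_co.PrincipalClasses
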